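import Pool.Agent.KDS.StmtsA

/-!
# KDS, row MVP: the combination as a polynomial
-/

set_option autoImplicit false

namespace Pool.Agent.KDS.H92

open Polynomial NumberField H58Q Pool.Agent.SZT Pool.Agent.KDT

/-- component 0 of the duplication over a ring -/
def dq0 {R : Type} [CommRing R] (c : ℕ → R) (u : Fin 4 → R) : R :=
    8 * (u 2) ^ 3 * u 3 + 4 * c 4 * (u 2) ^ 4 - 4 * u 1 * u 2 * (u 3) ^ 2
      + 4 * c 3 * u 1 * (u 2) ^ 3 + 4 * u 0 * (u 3) ^ 3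
      - 4 * c 3 * u 0 * (u 2) ^ 2 * u 3 + 4 * c 2 * (u 1) ^ 2 * (u 2) ^ 2
      - 8 * c 2 * u 0 * u 1 * u 2 * u 3 - 8 * c 1 * u 0 * u 1 * (u 2) ^ 2
      + 4 * c 2 * (u 0) ^ 2 * (u 3) ^ 2 - 8 * c 1 * (u 0) ^ 2 * u 2 * u 3
      + 16 * c 0 * (u 0) ^ 2 * (u 2) ^ 2
      - 8 * c 4 * c 1 * (u 0) ^ 2 * (u 2) ^ 2 + 4 * c 1 * (u 1) ^ 3 * u 2
      - 4 * c 1 * u 0 * (u 1) ^ 2 * u 3 - 16 * c 0 * u 0 * (u 1) ^ 2 * u 2
      - 32 * c 0 * (u 0) ^ 2 * u 1 * u 3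
      - 4 * c 3 * c 1 * (u 0) ^ 2 * u 1 * u 2
      - 16 * c 4 * c 0 * (u 0) ^ 2 * u 1 * u 2
      + 4 * c 3 * c 1 * (u 0) ^ 3 * u 3
      - 16 * c 4 * c 0 * (u 0) ^ 3 * u 3
      - 16 * c 3 * c 0 * (u 0) ^ 3 * u 2 + 4 * c 0 * (u 1) ^ 4
      - 8 * c 3 * c 0 * (u 0) ^ 2 * (u 1) ^ 2 + 8 * (c 1) ^ 2 * (u 0) ^ 3 * u 1
      - 32 * c 2 * c 0 * (u 0) ^ 3 * u 1
      + 4 * (c 3) ^ 2 * c 0 * (u 0) ^ 4 + 4 * c 4 * (c 1) ^ 2 * (u 0) ^ 4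
      - 16 * c 4 * c 2 * c 0 * (u 0) ^ 4

/-- component 1 of the duplication over a ring -/
def dq1 {R : Type} [CommRing R] (c : ℕ → R) (u : Fin 4 → R) : R :=
    4 * (u 2) ^ 2 * (u 3) ^ 2 - 4 * c 3 * (u 2) ^ 4 + 4 * u 1 * (u 3) ^ 3
      + 8 * c 4 * u 1 * u 2 * (u 3) ^ 2 + 12 * c 3 * u 1 * (u 2) ^ 2 * u 3
      + 12 * c 3 * u 0 * u 2 * (u 3) ^ 2 + 16 * c 2 * u 0 * (u 2) ^ 2 * u 3
      + 8 * c 4 * c 3 * u 0 * (u 2) ^ 2 * u 3 + 16 * c 1 * u 0 * (u 2) ^ 3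
      + 4 * (c 3) ^ 2 * u 0 * (u 2) ^ 3 + 8 * c 2 * (u 1) ^ 2 * u 2 * u 3
      + 4 * c 1 * (u 1) ^ 2 * (u 2) ^ 2 + 8 * c 2 * u 0 * u 1 * (u 3) ^ 2
      + 16 * c 1 * u 0 * u 1 * u 2 * u 3
      + 16 * c 4 * c 2 * u 0 * u 1 * u 2 * u 3
      + 32 * c 0 * u 0 * u 1 * (u 2) ^ 2
      + 8 * c 3 * c 2 * u 0 * u 1 * (u 2) ^ 2
      + 16 * c 4 * c 1 * u 0 * u 1 * (u 2) ^ 2
      + 4 * c 1 * (u 0) ^ 2 * (u 3) ^ 2 - 16 * c 0 * (u 0) ^ 2 * u 2 * u 3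
      + 8 * c 3 * c 2 * (u 0) ^ 2 * u 2 * u 3
      + 16 * c 4 * c 1 * (u 0) ^ 2 * u 2 * u 3
      + 16 * (c 2) ^ 2 * (u 0) ^ 2 * (u 2) ^ 2
      - 24 * c 3 * c 1 * (u 0) ^ 2 * (u 2) ^ 2
      + 16 * (c 4) ^ 2 * c 1 * (u 0) ^ 2 * (u 2) ^ 2
      + 4 * c 1 * (u 1) ^ 3 * u 3 + 8 * c 0 * (u 1) ^ 3 * u 2
      + 8 * c 0 * u 0 * (u 1) ^ 2 * u 3 + 8 * c 4 * c 1 * u 0 * (u 1) ^ 2 * u 3
      + 12 * c 3 * c 1 * u 0 * (u 1) ^ 2 * u 2
      + 32 * c 4 * c 0 * u 0 * (u 1) ^ 2 * u 2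
      + 12 * c 3 * c 1 * (u 0) ^ 2 * u 1 * u 3
      + 16 * c 4 * c 0 * (u 0) ^ 2 * u 1 * u 3
      + 16 * c 2 * c 1 * (u 0) ^ 2 * u 1 * u 2
      - 40 * c 3 * c 0 * (u 0) ^ 2 * u 1 * u 2
      + 8 * c 4 * c 3 * c 1 * (u 0) ^ 2 * u 1 * u 2
      + 32 * (c 4) ^ 2 * c 0 * (u 0) ^ 2 * u 1 * u 2
      + 24 * c 3 * c 0 * (u 0) ^ 3 * u 3 + 16 * (c 1) ^ 2 * (u 0) ^ 3 * u 2
      - 32 * c 2 * c 0 * (u 0) ^ 3 * u 2
      + 4 * (c 3) ^ 2 * c 1 * (u 0) ^ 3 * u 2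
      + 16 * c 4 * c 3 * c 0 * (u 0) ^ 3 * u 2
      + 16 * c 3 * c 0 * u 0 * (u 1) ^ 3
      + 4 * (c 1) ^ 2 * (u 0) ^ 2 * (u 1) ^ 2
      + 16 * c 4 * c 3 * c 0 * (u 0) ^ 2 * (u 1) ^ 2
      + 16 * c 1 * c 0 * (u 0) ^ 3 * u 1
      + 16 * (c 3) ^ 2 * c 0 * (u 0) ^ 3 * u 1 + 16 * (c 0) ^ 2 * (u 0) ^ 4
      - 4 * c 3 * (c 1) ^ 2 * (u 0) ^ 4
      + 16 * c 3 * c 2 * c 0 * (u 0) ^ 4

/-- component 2 of the duplication over a ring -/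
def dq2 {R : Type} [CommRing R] (c : ℕ → R) (u : Fin 4 → R) : R :=
    4 * u 2 * (u 3) ^ 3 + 4 * c 4 * (u 2) ^ 2 * (u 3) ^ 2 + 4 * c 3 * (u 2) ^ 3 * u 3
      + 4 * c 2 * (u 2) ^ 4 + 8 * c 1 * u 1 * (u 2) ^ 3
      - 8 * c 1 * u 0 * (u 2) ^ 2 * u 3 - 16 * c 0 * u 0 * (u 2) ^ 3
      - 4 * c 1 * (u 1) ^ 2 * u 2 * u 3 + 12 * c 0 * (u 1) ^ 2 * (u 2) ^ 2
      - 4 * c 1 * u 0 * u 1 * (u 3) ^ 2 - 24 * c 0 * u 0 * u 1 * u 2 * u 3
      - 8 * c 4 * c 1 * u 0 * u 1 * u 2 * u 3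
      - 4 * c 3 * c 1 * u 0 * u 1 * (u 2) ^ 2
      - 16 * c 4 * c 0 * u 0 * u 1 * (u 2) ^ 2
      - 12 * c 0 * (u 0) ^ 2 * (u 3) ^ 2
      - 4 * c 3 * c 1 * (u 0) ^ 2 * u 2 * u 3
      - 16 * c 4 * c 0 * (u 0) ^ 2 * u 2 * u 3
      - 8 * c 2 * c 1 * (u 0) ^ 2 * (u 2) ^ 2
      + 24 * c 3 * c 0 * (u 0) ^ 2 * (u 2) ^ 2
      - 16 * (c 4) ^ 2 * c 0 * (u 0) ^ 2 * (u 2) ^ 2
      - 8 * c 0 * (u 1) ^ 3 * u 3 - 16 * c 4 * c 0 * u 0 * (u 1) ^ 2 * u 3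
      - 24 * c 3 * c 0 * u 0 * (u 1) ^ 2 * u 2
      - 24 * c 3 * c 0 * (u 0) ^ 2 * u 1 * u 3
      - 8 * (c 1) ^ 2 * (u 0) ^ 2 * u 1 * u 2
      - 16 * c 4 * c 3 * c 0 * (u 0) ^ 2 * u 1 * u 2
      + 8 * (c 1) ^ 2 * (u 0) ^ 3 * u 3 - 32 * c 2 * c 0 * (u 0) ^ 3 * u 3
      - 16 * c 1 * c 0 * (u 0) ^ 3 * u 2
      - 8 * (c 3) ^ 2 * c 0 * (u 0) ^ 3 * u 2 + 4 * (c 1) ^ 2 * u 0 * (u 1) ^ 3
      - 16 * c 2 * c 0 * u 0 * (u 1) ^ 3
      - 8 * c 1 * c 0 * (u 0) ^ 2 * (u 1) ^ 2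
      + 4 * c 4 * (c 1) ^ 2 * (u 0) ^ 2 * (u 1) ^ 2
      - 16 * c 4 * c 2 * c 0 * (u 0) ^ 2 * (u 1) ^ 2
      - 32 * (c 0) ^ 2 * (u 0) ^ 3 * u 1
      + 4 * c 3 * (c 1) ^ 2 * (u 0) ^ 3 * u 1
      - 16 * c 3 * c 2 * c 0 * (u 0) ^ 3 * u 1
      + 4 * c 2 * (c 1) ^ 2 * (u 0) ^ 4
      - 16 * (c 2) ^ 2 * c 0 * (u 0) ^ 4
      + 8 * c 3 * c 1 * c 0 * (u 0) ^ 4
      - 16 * c 4 * (c 0) ^ 2 * (u 0) ^ 4

/-- component 3 of the duplication over a ring -/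
def dq3 {R : Type} [CommRing R] (c : ℕ → R) (u : Fin 4 → R) : R :=
    (u 3) ^ 4 - 2 * c 3 * (u 2) ^ 2 * (u 3) ^ 2 - 8 * c 2 * (u 2) ^ 3 * u 3
      - 2 * c 1 * (u 2) ^ 4 + (c 3) ^ 2 * (u 2) ^ 4
      - 4 * c 4 * c 2 * (u 2) ^ 4 - 12 * c 1 * u 1 * (u 2) ^ 2 * u 3
      - 8 * c 0 * u 1 * (u 2) ^ 3 - 8 * c 4 * c 1 * u 1 * (u 2) ^ 3
      - 8 * c 0 * u 0 * (u 2) ^ 2 * u 3 - 4 * c 3 * c 1 * u 0 * (u 2) ^ 3
      - 16 * c 0 * (u 1) ^ 2 * u 2 * u 3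
      - 2 * c 3 * c 1 * (u 1) ^ 2 * (u 2) ^ 2
      - 16 * c 4 * c 0 * (u 1) ^ 2 * (u 2) ^ 2
      + 8 * c 0 * u 0 * u 1 * (u 3) ^ 2 + 4 * c 3 * c 1 * u 0 * u 1 * u 2 * u 3
      - 8 * c 3 * c 0 * u 0 * u 1 * (u 2) ^ 2
      - 2 * c 3 * c 1 * (u 0) ^ 2 * (u 3) ^ 2
      + 8 * c 4 * c 0 * (u 0) ^ 2 * (u 3) ^ 2
      + 16 * c 3 * c 0 * (u 0) ^ 2 * u 2 * u 3
      + 12 * (c 1) ^ 2 * (u 0) ^ 2 * (u 2) ^ 2
      - 32 * c 2 * c 0 * (u 0) ^ 2 * (u 2) ^ 2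
      + 8 * c 4 * c 3 * c 0 * (u 0) ^ 2 * (u 2) ^ 2
      - 8 * c 3 * c 0 * (u 1) ^ 3 * u 2
      + 8 * c 3 * c 0 * u 0 * (u 1) ^ 2 * u 3
      - 12 * (c 1) ^ 2 * (u 0) ^ 2 * u 1 * u 3
      + 48 * c 2 * c 0 * (u 0) ^ 2 * u 1 * u 3
      + 16 * c 1 * c 0 * (u 0) ^ 2 * u 1 * u 2
      + 8 * (c 3) ^ 2 * c 0 * (u 0) ^ 2 * u 1 * u 2
      - 8 * (c 3) ^ 2 * c 0 * (u 0) ^ 3 * u 3
      - 8 * c 4 * (c 1) ^ 2 * (u 0) ^ 3 * u 3
      + 32 * c 4 * c 2 * c 0 * (u 0) ^ 3 * u 3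
      + 32 * (c 0) ^ 2 * (u 0) ^ 3 * u 2
      - 4 * c 3 * (c 1) ^ 2 * (u 0) ^ 3 * u 2
      + 16 * c 3 * c 2 * c 0 * (u 0) ^ 3 * u 2 + (c 1) ^ 2 * (u 1) ^ 4
      - 4 * c 2 * c 0 * (u 1) ^ 4 + 16 * (c 0) ^ 2 * (u 0) ^ 2 * (u 1) ^ 2
      - 2 * c 3 * (c 1) ^ 2 * (u 0) ^ 2 * (u 1) ^ 2
      + 8 * c 3 * c 2 * c 0 * (u 0) ^ 2 * (u 1) ^ 2
      - 8 * c 2 * (c 1) ^ 2 * (u 0) ^ 3 * u 1
      + 32 * (c 2) ^ 2 * c 0 * (u 0) ^ 3 * u 1
      - 16 * c 3 * c 1 * c 0 * (u 0) ^ 3 * u 1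
      + 32 * c 4 * (c 0) ^ 2 * (u 0) ^ 3 * u 1 - 2 * (c 1) ^ 3 * (u 0) ^ 4
      + 8 * c 2 * c 1 * c 0 * (u 0) ^ 4
      - 16 * c 3 * (c 0) ^ 2 * (u 0) ^ 4
      + (c 3) ^ 2 * (c 1) ^ 2 * (u 0) ^ 4
      - 4 * (c 3) ^ 2 * c 2 * c 0 * (u 0) ^ 4
      - 4 * c 4 * c 2 * (c 1) ^ 2 * (u 0) ^ 4
      + 16 * c 4 * (c 2) ^ 2 * c 0 * (u 0) ^ 4
      - 8 * c 4 * c 3 * c 1 * c 0 * (u 0) ^ 4
      + 16 * (c 4) ^ 2 * (c 0) ^ 2 * (u 0) ^ 4

theorem dup0_eq {K : Type} [Field K] (f : K[X]) (u : Fin 4 → K) :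
    dup0 f u = dq0 f.coeff u := rfl

theorem dup1_eq {K : Type} [Field K] (f : K[X]) (u : Fin 4 → K) :
    dup1 f u = dq1 f.coeff u := rfl

theorem dup2_eq {K : Type} [Field K] (f : K[X]) (u : Fin 4 → K) :
    dup2 f u = dq2 f.coeff u := rfl

theorem dup3_eq {K : Type} [Field K] (f : K[X]) (u : Fin 4 → K) :
    dup3 f u = dq3 f.coeff u := rfl

theorem map_dq0 {R S : Type} [CommRing R] [CommRing S] (ψ : R →+* S) (c : ℕ → R)
    (u : Fin 4 → R) : ψ (dq0 c u) = dq0 (fun k => ψ (c k)) (fun i => ψ (u i)) := by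
  unfold dq0
  simp only [map_add, map_sub, map_mul, map_pow, map_ofNat]

theorem map_dq1 {R S : Type} [CommRing R] [CommRing S] (ψ : R →+* S) (c : ℕ → R)
    (u : Fin 4 → R) : ψ (dq1 c u) = dq1 (fun k => ψ (c k)) (fun i => ψ (u i)) := by
  unfold dq1
  simp only [map_add, map_sub, map_mul, map_pow, map_ofNat]

theorem map_dq2 {R S : Type} [CommRing R] [CommRing S] (ψ : R →+* S) (c : ℕ → R)
    (u : Fin 4 → R) : ψ (dq2 c u) = dq2 (fun k => ψ (c k)) (fun i => ψ (u i)) := by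
  unfold dq2
  simp only [map_add, map_sub, map_mul, map_pow, map_ofNat]

theorem map_dq3 {R S : Type} [CommRing R] [CommRing S] (ψ : R →+* S) (c : ℕ → R)
    (u : Fin 4 → R) : ψ (dq3 c u) = dq3 (fun k => ψ (c k)) (fun i => ψ (u i)) := by
  unfold dq3
  simp only [map_add, map_sub, map_mul, map_pow, map_ofNat]

/-- total degree at most `d` -/
def TD {K : Type} [Field K] (d : ℕ) (P : MvPolynomial (Fin 4) K) : Prop := P.totalDegree ≤ d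

section td

variable {K : Type} [Field K]

theorem td_mono {a b : ℕ} {P : MvPolynomial (Fin 4) K} (h : TD a P) (hab : a ≤ b) : TD b P :=
  le_trans h hab

theorem td_add {d : ℕ} {P Q : MvPolynomial (Fin 4) K} (h : TD d P) (h' : TD d Q) :
    TD d (P + Q) :=
  le_trans (MvPolynomial.totalDegree_add _ _) (max_le h h')

theorem td_sub {d : ℕ} {P Q : MvPolynomial (Fin 4) K} (h : TD d P) (h' : TD d Q) :
    TD d (P - Q) :=
  le_trans (MvPolynomial.totalDegree_sub _ _) (max_le h h')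

theorem td_mul {a b : ℕ} {P Q : MvPolynomial (Fin 4) K} (h : TD a P) (h' : TD b Q) :
    TD (a + b) (P * Q) :=
  le_trans (MvPolynomial.totalDegree_mul _ _) (Nat.add_le_add h h')

theorem td_pow {a : ℕ} {P : MvPolynomial (Fin 4) K} (h : TD a P) (n : ℕ) :
    TD (n * a) (P ^ n) :=
  le_trans (MvPolynomial.totalDegree_pow _ _) (Nat.mul_le_mul le_rfl h)

theorem td_num (n : ℕ) [n.AtLeastTwo] : TD 0 (OfNat.ofNat n : MvPolynomial (Fin 4) K) := by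
  unfold TD
  rw [← map_ofNat (MvPolynomial.C (σ := Fin 4) (R := K)) n, MvPolynomial.totalDegree_C]

theorem td_C (a : K) : TD 0 (MvPolynomial.C a : MvPolynomial (Fin 4) K) := by
  unfold TD
  rw [MvPolynomial.totalDegree_C]

theorem td_dq0 (c : ℕ → MvPolynomial (Fin 4) K) (u : Fin 4 → MvPolynomial (Fin 4) K) (d : ℕ)
    (hc : ∀ k, TD 0 (c k)) (hu : ∀ i, TD d (u i)) : TD (4 * d) (dq0 c u) := by
  unfold dq0
  repeat' first
    | with_reducible refine td_add ?_ ?_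
    | with_reducible refine td_sub ?_ ?_
  all_goals
    apply td_mono
    · repeat' first
        | with_reducible exact hu _
        | with_reducible exact hc _
        | with_reducible exact td_num _
        | with_reducible apply td_mul
        | with_reducible apply td_pow
    · omega

theorem td_dq1 (c : ℕ → MvPolynomial (Fin 4) K) (u : Fin 4 → MvPolynomial (Fin 4) K) (d : ℕ)
    (hc : ∀ k, TD 0 (c k)) (hu : ∀ i, TD d (u i)) : TD (4 * d) (dq1 c u) := by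
  unfold dq1
  repeat' first
    | with_reducible refine td_add ?_ ?_
    | with_reducible refine td_sub ?_ ?_
  all_goals
    apply td_mono
    · repeat' first
        | with_reducible exact hu _
        | with_reducible exact hc _
        | with_reducible exact td_num _
        | with_reducible apply td_mul
        | with_reducible apply td_pow
    · omega

theorem td_dq2 (c : ℕ → MvPolynomial (Fin 4) K) (u : Fin 4 → MvPolynomial (Fin 4) K) (d : ℕ)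
    (hc : ∀ k, TD 0 (c k)) (hu : ∀ i, TD d (u i)) : TD (4 * d) (dq2 c u) := by
  unfold dq2
  repeat' first
    | with_reducible refine td_add ?_ ?_
    | with_reducible refine td_sub ?_ ?_
  all_goals
    apply td_mono
    · repeat' first
        | with_reducible exact hu _
        | with_reducible exact hc _
        | with_reducible exact td_num _
        | with_reducible apply td_mul
        | with_reducible apply td_pow
    · omega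

theorem td_dq3 (c : ℕ → MvPolynomial (Fin 4) K) (u : Fin 4 → MvPolynomial (Fin 4) K) (d : ℕ)
    (hc : ∀ k, TD 0 (c k)) (hu : ∀ i, TD d (u i)) : TD (4 * d) (dq3 c u) := by
  unfold dq3
  repeat' first
    | with_reducible refine td_add ?_ ?_
    | with_reducible refine td_sub ?_ ?_
  all_goals
    apply td_mono
    · repeat' first
        | with_reducible exact hu _
        | with_reducible exact hc _
        | with_reducible exact td_num _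
        | with_reducible apply td_mul
        | with_reducible apply td_pow
    · omega

/-- the duplication polynomials as a vector -/
def dqv {R : Type} [CommRing R] (c : ℕ → R) (u : Fin 4 → R) : Fin 4 → R :=
  ![dq0 c u, dq1 c u, dq2 c u, dq3 c u]

theorem dup_eq (f : K[X]) (u : Fin 4 → K) : dup f u = dqv f.coeff u := rfl

theorem map_dqv {R S : Type} [CommRing R] [CommRing S] (ψ : R →+* S) (c : ℕ → R)
    (u : Fin 4 → R) (i : Fin 4) :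
    ψ (dqv c u i) = dqv (fun k => ψ (c k)) (fun i => ψ (u i)) i := by
  fin_cases i
  · exact map_dq0 ψ c u
  · exact map_dq1 ψ c u
  · exact map_dq2 ψ c u
  · exact map_dq3 ψ c u

theorem td_dqv (c : ℕ → MvPolynomial (Fin 4) K) (u : Fin 4 → MvPolynomial (Fin 4) K) (d : ℕ)
    (hc : ∀ k, TD 0 (c k)) (hu : ∀ i, TD d (u i)) (i : Fin 4) : TD (4 * d) (dqv c u i) := by
  fin_cases i
  · exact td_dq0 c u d hc hu
  · exact td_dq1 c u d hc hu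
  · exact td_dq2 c u d hc hu
  · exact td_dq3 c u d hc hu

theorem dpw_succ (f : K[X]) (a : ℕ) (u : Fin 4 → K) : dpw f (a + 1) u = dup f (dpw f a u) := by
  induction a generalizing u with
  | zero => rfl
  | succ a ih =>
    show dpw f (a + 1) (dup f u) = dup f (dpw f (a + 1) u)
    rw [ih]
    rfl

/-- the iterated duplication polynomials -/
noncomputable def dpq (f : K[X]) : ℕ → Fin 4 → MvPolynomial (Fin 4) K
  | 0 => MvPolynomial.X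
  | a + 1 => dqv (fun k => MvPolynomial.C (f.coeff k)) (dpq f a)

theorem td_dpq (f : K[X]) (a : ℕ) (i : Fin 4) : TD (4 ^ a) (dpq f a i) := by
  induction a generalizing i with
  | zero =>
    show TD 1 (MvPolynomial.X i)
    unfold TD
    rw [MvPolynomial.totalDegree_X]
  | succ a ih =>
    rw [pow_succ, mul_comm]
    exact td_dqv _ _ _ (fun k => td_C _) ih i

theorem ev_dpq (f : K[X]) (a : ℕ) (i : Fin 4) (E : Type) [Field E] (φ : K →+* E)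
    (u : Fin 4 → E) :
    MvPolynomial.eval₂Hom φ u (dpq f a i) = dpw (f.map φ) a u i := by
  induction a generalizing i with
  | zero => exact MvPolynomial.eval₂Hom_X' φ u i
  | succ a ih =>
    rw [dpw_succ, dup_eq]
    show MvPolynomial.eval₂Hom φ u (dqv (fun k => MvPolynomial.C (f.coeff k)) (dpq f a) i) = _
    rw [map_dqv]
    congr 1
    · funext k
      rw [MvPolynomial.eval₂Hom_C, Polynomial.coeff_map]
    · funext j
      exact ih j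

/-- the monomial in the polynomials -/
noncomputable def mnq (e : Fin 4 → ℕ) (u : Fin 4 → MvPolynomial (Fin 4) K) :
    MvPolynomial (Fin 4) K := ∏ i, u i ^ e i

theorem td_mnq (e : Ex 2) (u : Fin 4 → MvPolynomial (Fin 4) K) (d : ℕ)
    (hu : ∀ i, TD d (u i)) : TD (2 * d) (mnq e.1 u) := by
  unfold TD mnq
  refine le_trans (MvPolynomial.totalDegree_finsetProd _ _) ?_
  have h1 : ∀ i ∈ (Finset.univ : Finset (Fin 4)), (u i ^ e.1 i).totalDegree ≤ e.1 i * d :=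
    fun i _ => td_pow (hu i) _
  refine le_trans (Finset.sum_le_sum h1) ?_
  rw [← Finset.sum_mul, Fin.sum_univ_four]
  have h2 := e.2
  unfold Ex at h2
  rw [Finset.mem_filter] at h2
  rw [h2.2.1]

theorem lev_eq (i : ℕ) : ∑ a : Fin i, 2 * 4 ^ (a : ℕ) = lev i := by
  induction i with
  | zero => rfl
  | succ i ih =>
    rw [Fin.sum_univ_succ]
    have e : ∑ a : Fin i, 2 * 4 ^ ((a.succ : Fin (i + 1)) : ℕ) =
        4 * ∑ a : Fin i, 2 * 4 ^ (a : ℕ) := by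
      rw [Finset.mul_sum]
      refine Finset.sum_congr rfl fun a _ => ?_
      rw [Fin.val_succ, pow_succ]
      ring
    rw [e, ih]
    show 2 * 4 ^ 0 + 4 * lev i = 4 * lev i + 2
    ring

theorem mvp : MvpStatement := by
  intro K _ f i c
  refine ⟨∑ q : QI i, MvPolynomial.C (c q) * ∏ a : Fin i, mnq (q a).1 (dpq f a), ?_, ?_⟩
  · refine MvPolynomial.totalDegree_finsetSum_le fun q _ => ?_
    refine le_trans (MvPolynomial.totalDegree_mul _ _) ?_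
    rw [MvPolynomial.totalDegree_C, zero_add]
    refine le_trans (MvPolynomial.totalDegree_finsetProd _ _) ?_
    rw [← lev_eq]
    exact Finset.sum_le_sum fun a _ => td_mnq (q a) _ _ fun j => td_dpq f a j
  · intro E _ φ u
    rw [← MvPolynomial.coe_eval₂Hom, map_sum]
    refine Finset.sum_congr rfl fun q _ => ?_
    rw [map_mul, MvPolynomial.eval₂Hom_C, map_prod]
    unfold PQ mnq mon
    congr 1
    refine Finset.prod_congr rfl fun a _ => ?_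
    rw [map_prod]
    refine Finset.prod_congr rfl fun j _ => ?_
    rw [map_pow, ev_dpq]

end td

end Pool.Agent.KDS.H92
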